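import Pool.Agent.W217.RS.All
import Pool.Agent.W217.RS.Ans

set_option autoImplicit false

/-!
# The optimal exponent of the averaged condition number for dense linear systems is zero

The model (`Pool.Agent.W217.RS.Defs`): programs with counters and arrays of real numbers; every
arithmetic operation and every comparison of real numbers, and every operation on counters, counts.

Idea of the algorithm: after rounding (by comparisons) the entries to integers with
`O(log (n κ / ε))` bits, the rows of a matrix are packed into single numbers, so that the product of
two matrices is obtained with `O(n ^ 2)` operations, and the entries of the product are extracted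
with `O(n ^ 2 * log (n κ / ε))` comparisons. The inverse is computed by a rounded Newton iteration;
the result is checked, and the precision is increased until it is accepted. So the number of
operations is `n ^ 2` times a power of the logarithm of the condition number.
-/

namespace Pool.Agent.Results.MP_2781e4_lc.ExponentZero

open Pool.Agent.W217.RS

/-- Every exponent `p > 0` is achievable with the cost measure `n ^ 2`, so the smallest exponent
is `0`. -/
theorem result : (∀ p : ℝ, 0 < p → Achievable p) ∧ sInf {p : ℝ | 0 < p ∧ Achievable p} = 0 := by
  have h : ∀ p : ℝ, 0 < p → Achievable p := by
    intro p hp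
    obtain ⟨P, hP⟩ := hFINB
    obtain ⟨C, hC⟩ := hP p hp
    exact ⟨P, C, 3, hC⟩
  refine ⟨h, ?_⟩
  have : {p : ℝ | 0 < p ∧ Achievable p} = Set.Ioi 0 := by
    ext p
    exact ⟨fun hp => hp.1, fun hp => ⟨hp, h p hp⟩⟩
  rw [this]
  exact csInf_Ioi

end Pool.Agent.Results.MP_2781e4_lc.ExponentZero
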